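import Mathlib

/-!
# The SYZ conjecture for primitive symplectic varieties: definitions
-/

set_option autoImplicit false

namespace Pool.Agent.V7H14.SY

/-- Normal projective complex varieties (one from each isomorphism class), their line bundles and reflexive
`2`-forms. -/
structure Varieties where
  /-- the varieties -/
  Var : Type
  /-- the dimension -/
  dim : Var → ℕ
  /-- the group of line bundles -/
  Pic : Var → Type
  [picGroup : ∀ X, AddCommGroup (Pic X)]
  /-- nef line bundles -/
  Nef : ∀ X, Set (Pic X)
  /-- semiample line bundles -/
  Semiample : ∀ X, Set (Pic X)
  /-- the space `H^0(X, Ω^[2])` of reflexive `2`-forms -/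
  Forms : Var → Type
  [formsGroup : ∀ X, AddCommGroup (Forms X)]
  [formsModule : ∀ X, Module ℂ (Forms X)]
  /-- symplectic varieties of positive dimension -/
  Symplectic : Var → Prop
  /-- `H^1(X, O) = 0` -/
  Regular : Var → Prop
  /-- abelian varieties -/
  Abelian : Var → Prop
  /-- irreducible symplectic varieties of Greb, Kebekus and Peternell: symplectic varieties (not abelian) such that
  for each finite quasi-étale cover the algebra of the reflexive forms is generated by the symplectic form -/
  Irreducible : Var → Prop
  /-- surjective morphisms -/
  Map : Var → Var → Type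
  /-- the pullback of line bundles -/
  pull : ∀ {X Y}, Map X Y → Pic Y →+ Pic X

attribute [instance] Varieties.picGroup Varieties.formsGroup Varieties.formsModule

variable (V : Varieties)

/-- `M` is a projective primitive symplectic variety: it is symplectic, `H^1(M, O) = 0`, and the space of the
reflexive `2`-forms is spanned by one form. -/
def Primitive (M : V.Var) : Prop :=
  V.Symplectic M ∧ V.Regular M ∧ ∃ σ : V.Forms M, ∀ ω : V.Forms M, ∃ c : ℂ, ω = c • σ

/-- The assertion of the question for `M`: nef line bundles are semiample. -/
def SYZ (M : V.Var) : Prop := ∀ L ∈ V.Nef M, L ∈ V.Semiample M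

/-- The data of a finite quasi-étale Galois cover of `M` by a product of varieties `B i`, `i` in a finite set `I`. The
Galois group `G` permutes the factors. -/
structure Cover (M : V.Var) where
  /-- the Galois group -/
  G : Type
  [group : Group G]
  /-- the index set of the factors -/
  I : Type
  [fintype : Fintype I]
  /-- the permutation of the factors -/
  [action : MulAction G I]
  /-- the factors -/
  B : I → V.Var
  /-- the restriction of the pullback of a line bundle on `M` to a factor -/
  res : ∀ i, V.Pic M →+ V.Pic (B i)
  /-- the component of the pullback of a form on `M` which belongs to a factor -/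
  comp : ∀ i, V.Forms M →ₗ[ℂ] V.Forms (B i)

attribute [instance] Cover.group Cover.fintype Cover.action

variable {V}

/-- Known properties of such a cover of a symplectic variety `M`, if the factors are irreducible symplectic varieties
and at most one abelian variety. -/
structure IsCover {M : V.Var} (C : Cover V M) : Prop where
  /-- the factors -/
  factors : ∀ i, V.Irreducible (C.B i) ∨ V.Abelian (C.B i)
  /-- at most one factor is abelian -/
  abelian : ∀ i j, V.Abelian (C.B i) → V.Abelian (C.B j) → i = j
  /-- factors which are permuted are isomorphic -/
  orbit : ∀ (g : C.G) i, C.B (g • i) = C.B i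
  nonempty : Nonempty C.I
  dim : ∑ i, V.dim (C.B i) = V.dim M
  /-- the components of the pullback of a form on `M` in a union of orbits of factors are the components of the pullback
  of a form on `M`: they define a form on the cover which is invariant under the Galois group -/
  forms : ∀ J : Set C.I, (∀ (g : C.G), ∀ i ∈ J, g • i ∈ J) → ∀ ω : V.Forms M, ∃ ω' : V.Forms M,
    (∀ i ∈ J, C.comp i ω' = C.comp i ω) ∧ ∀ i, i ∉ J → C.comp i ω' = 0
  /-- the symplectic form is not degenerate on the factors -/
  symplectic : ∃ ω : V.Forms M, ∀ i, C.comp i ω ≠ 0
  nef : ∀ L ∈ V.Nef M, ∀ i, C.res i L ∈ V.Nef (C.B i)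
  /-- if no factor is abelian, the line bundles on the product are the exterior products of their restrictions to the
  factors, and `L` is semiample if its pullback to a finite cover is semiample -/
  semiample : (∀ i, V.Irreducible (C.B i)) → ∀ L : V.Pic M, (∀ i, C.res i L ∈ V.Semiample (C.B i)) → L ∈ V.Semiample M

/-- The finite quasi-étale Galois covers: for each symplectic variety `M` the set of its finite quasi-étale Galois covers
by products of irreducible symplectic varieties and at most one abelian variety. -/
structure Covers (V : Varieties) where
  cov : ∀ M : V.Var, Set (Cover V M)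

variable (Q : Covers V)

/-- `M` has a finite quasi-étale Galois cover which is an abelian variety. -/
def TorusQuotient (M : V.Var) : Prop := ∃ C ∈ Q.cov M, ∀ i, V.Abelian (C.B i)

/-- `M` has a finite quasi-étale Galois cover which is a product of `r` varieties isomorphic to `Z`, and the Galois
group permutes the factors transitively. -/
def PowerQuotient (M Z : V.Var) (r : ℕ) : Prop :=
  ∃ C ∈ Q.cov M, Fintype.card C.I = r ∧ (∀ i, C.B i = Z) ∧ ∀ i j : C.I, ∃ g : C.G, g • i = j

/-- Known properties. -/
structure Facts : Prop where
  /-- the properties of the covers -/
  covers : ∀ M, ∀ C ∈ Q.cov M, IsCover C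
  /-- the decomposition theorem of Beauville, Bogomolov, Druel, Greb, Guenancia, Höring, Kebekus and Peternell -/
  decomposition : ∀ M, V.Symplectic M → (Q.cov M).Nonempty
  irreducible : ∀ Z, V.Irreducible Z → Primitive V Z ∧ ¬ V.Abelian Z
  /-- nef line bundles on the finite quotients `M` of abelian varieties with `H^1(M, O) = 0` are semiample -/
  torus : ∀ M, TorusQuotient Q M → V.Regular M → SYZ V M
  /-- pullbacks of nef line bundles are nef; a line bundle on a normal variety is semiample if its pullback by a
  surjective morphism is semiample -/
  pull_nef : ∀ {X Y} (f : V.Map X Y), ∀ L ∈ V.Nef Y, V.pull f L ∈ V.Nef X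
  pull_semiample : ∀ {X Y} (f : V.Map X Y) (L : V.Pic Y), V.pull f L ∈ V.Semiample X → L ∈ V.Semiample Y
  /-- irreducible symplectic varieties have even dimension, and those of dimension two (K3 surfaces with rational
  double points) satisfy the assertion of the question -/
  even : ∀ Z, V.Irreducible Z → ∃ d, 1 ≤ d ∧ V.dim Z = 2 * d
  surface : ∀ Z, V.Irreducible Z → V.dim Z = 2 → SYZ V Z

end Pool.Agent.V7H14.SY
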