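import Pool.Agent.V7H14.SY.Def

/-!
# The SYZ conjecture for primitive symplectic varieties: proofs
-/

set_option autoImplicit false

namespace Pool.Agent.V7H14.SY

variable {V : Varieties} {Q : Covers V}

/-- the Galois group permutes the factors transitively -/
theorem transitive {M : V.Var} (hM : Primitive V M) {C : Cover V M} (hC : IsCover C) (i j : C.I) :
    ∃ g : C.G, g • i = j := by
  obtain ⟨-, -, σ, hσ⟩ := hM
  obtain ⟨ω, hω⟩ := hC.symplectic
  obtain ⟨ω', h1, h2⟩ := hC.forms {k | ∃ g : C.G, g • i = k} (by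
    rintro g _ ⟨h, rfl⟩
    exact ⟨g * h, mul_smul g h i⟩) ω
  by_contra hj
  obtain ⟨c, hc⟩ := hσ ω'
  obtain ⟨d, hd⟩ := hσ ω
  have h3 : C.comp j ω' = 0 := h2 j hj
  have h4 := hω j
  have h5 := hω i
  rw [hc, map_smul] at h3
  rw [hd, map_smul] at h4
  rcases smul_eq_zero.1 h3 with h6 | h6
  · rw [← h1 i ⟨1, one_smul _ _⟩, hc, h6, zero_smul, map_zero] at h5
    exact h5 rfl
  · rw [h6, smul_zero] at h4
    exact h4 rfl

theorem card_factors {M : V.Var} {C : Cover V M} (hC : IsCover C) {Z : V.Var} (hZ : ∀ i, C.B i = Z) :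
    Fintype.card C.I * V.dim Z = V.dim M := by
  rw [← hC.dim, Finset.sum_congr rfl fun i _ => by rw [hZ i], Finset.sum_const, Finset.card_univ, smul_eq_mul]

/-- `1.` the structure of primitive symplectic varieties -/
theorem structure_primitive (hV : Facts Q) {M : V.Var} (hM : Primitive V M) :
    TorusQuotient Q M ∨ ∃ (Z : V.Var) (r : ℕ), V.Irreducible Z ∧ 1 ≤ r ∧ r * V.dim Z = V.dim M ∧
      PowerQuotient Q M Z r := by
  obtain ⟨C, hQ⟩ := hV.decomposition M hM.1
  have hC := hV.covers M C hQ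
  have hB : ∀ i j, C.B i = C.B j := by
    intro i j
    obtain ⟨g, hg⟩ := transitive hM hC i j
    rw [← hg, hC.orbit]
  obtain ⟨i⟩ := hC.nonempty
  rcases hC.factors i with h | h
  · right
    exact ⟨C.B i, Fintype.card C.I, h, Fintype.card_pos_iff.2 ⟨i⟩, card_factors hC fun j => hB j i,
      C, hQ, rfl, fun j => hB j i, transitive hM hC⟩
  · left
    exact ⟨C, hQ, fun j => by rw [hB j i]; exact h⟩

/-- `2.` semiampleness on quotients of powers -/
theorem syz_power (hV : Facts Q) {M Z : V.Var} (hZ : V.Irreducible Z) {r : ℕ} (hM : PowerQuotient Q M Z r) (h : SYZ V Z) :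
    SYZ V M := by
  obtain ⟨C, hQ, -, hB, -⟩ := hM
  have hC := hV.covers M C hQ
  intro L hL
  refine hC.semiample (fun i => by rw [hB i]; exact hZ) L fun i => ?_
  have h1 := hC.nef L hL i
  have h2 : SYZ V (C.B i) := by rw [hB i]; exact h
  exact h2 _ h1

theorem syz_pull (hV : Facts Q) {X Y : V.Var} (f : V.Map X Y) (h : SYZ V X) : SYZ V Y :=
  fun L hL => hV.pull_semiample f L (h _ (hV.pull_nef f L hL))

/-- `3.` the reduction -/
theorem syz_of_dim (hV : Facts Q) {M : V.Var} (hM : Primitive V M)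
    (h : ∀ Z r, V.Irreducible Z → 1 ≤ r → r * V.dim Z = V.dim M → PowerQuotient Q M Z r → SYZ V Z) : SYZ V M := by
  rcases structure_primitive hV hM with h1 | ⟨Z, r, h1, h2, h3, h4⟩
  · exact hV.torus M h1 hM.2.1
  · exact syz_power hV h1 h4 (h Z r h1 h2 h3 h4)

theorem syz_iff (hV : Facts Q) : (∀ M, Primitive V M → SYZ V M) ↔ ∀ Z, V.Irreducible Z → SYZ V Z :=
  ⟨fun h Z hZ => h Z (hV.irreducible Z hZ).1, fun h _ hM => syz_of_dim hV hM fun Z _ hZ _ _ _ => h Z hZ⟩

theorem syz_divisors (hV : Facts Q) (n : ℕ)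
    (h : ∀ d, d ∣ n → ∀ Z, V.Irreducible Z → V.dim Z = 2 * d → SYZ V Z) :
    ∀ M, Primitive V M → V.dim M = 2 * n → SYZ V M := by
  intro M hM hn
  refine syz_of_dim hV hM fun Z r hZ _ h2 _ => ?_
  obtain ⟨d, -, hd⟩ := hV.even Z hZ
  refine h d ⟨r, ?_⟩ Z hZ hd
  have h3 : 2 * n = 2 * (d * r) := by rw [← hn, ← h2, hd]; ring
  omega

theorem syz_prime (hV : Facts Q) (p : ℕ) (hp : p.Prime) (M : V.Var) (hM : Primitive V M) (hn : V.dim M = 2 * p) :
    SYZ V M ∨ ∃ Z, V.Irreducible Z ∧ V.dim Z = 2 * p ∧ PowerQuotient Q M Z 1 := by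
  rcases structure_primitive hV hM with h1 | ⟨Z, r, h1, h2, h3, h4⟩
  · exact Or.inl (hV.torus M h1 hM.2.1)
  · obtain ⟨d, hd1, hd⟩ := hV.even Z h1
    have h5 : p = r * d := by
      have : 2 * p = 2 * (r * d) := by rw [← hn, ← h3, hd]; ring
      omega
    rcases (Nat.dvd_prime hp).1 ⟨r, (h5.trans (mul_comm r d))⟩ with h6 | h6
    · left
      exact syz_power hV h1 h4 (hV.surface Z h1 (by rw [hd, h6]))
    · right
      have h7 : r = 1 := by
        have h8 : r * p = 1 * p := by rw [one_mul]; rw [h6] at h5; exact h5.symm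
        exact Nat.eq_of_mul_eq_mul_right hp.pos h8
      subst h7
      exact ⟨Z, h1, by rw [hd, h6], h4⟩

end Pool.Agent.V7H14.SY
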